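import Mathlib

set_option autoImplicit false

/-! The relation between the norm elements of the subgroups of `C_q × C_q`. -/

namespace Pool.Agent.X27.NR

open Finset

variable {G : Type*} [CommGroup G] [Finite G]

theorem card_sup_zpowers (D : Subgroup G) {x : G} {q : ℕ} (hq : q.Prime) (hx : x ∉ D)
    (hxq : x ^ q ∈ D) : Nat.card (D ⊔ Subgroup.zpowers x : Subgroup G) = q * Nat.card D := by
  set π := QuotientGroup.mk' D with hπ
  have hsurj : Function.Surjective π := QuotientGroup.mk'_surjective D
  have h1 : (Subgroup.zpowers (π x)).comap π = D ⊔ Subgroup.zpowers x := by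
    rw [← MonoidHom.map_zpowers, Subgroup.comap_map_eq, hπ, QuotientGroup.ker_mk', sup_comm]
  have hfact : Fact q.Prime := ⟨hq⟩
  have h2 : orderOf (π x) = q := by
    refine orderOf_eq_prime ?_ ?_
    · rw [← map_pow]
      exact (QuotientGroup.eq_one_iff _).2 hxq
    · intro h
      exact hx ((QuotientGroup.eq_one_iff _).1 h)
  have h3 := Subgroup.index_comap_of_surjective (Subgroup.zpowers (π x)) hsurj
  have h4 := (Subgroup.zpowers (π x)).card_mul_index
  have h5 := ((Subgroup.zpowers (π x)).comap π).card_mul_index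
  rw [h3] at h5
  rw [Nat.card_zpowers, h2] at h4
  have h6 : Nat.card (G ⧸ D) * Nat.card D = Nat.card G := (Subgroup.card_eq_card_quotient_mul_card_subgroup D).symm
  rw [h1] at h5
  have h7 : 0 < (Subgroup.zpowers (π x)).index := Nat.pos_of_ne_zero Subgroup.index_ne_zero_of_finite
  have h8 : Nat.card (D ⊔ Subgroup.zpowers x : Subgroup G) * (Subgroup.zpowers (π x)).index =
      (q * Nat.card D) * (Subgroup.zpowers (π x)).index := by
    rw [h5, ← h6, ← h4]
    ring
  exact Nat.eq_of_mul_eq_mul_right h7 h8

open Classical in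
/-- The subgroups between `D` and `E` of order `q |D|`. -/
noncomputable def between [Fintype (Subgroup G)] (D E : Subgroup G) (q : ℕ) : Finset (Subgroup G) :=
  univ.filter fun D' => D ≤ D' ∧ D' ≤ E ∧ Nat.card D' = q * Nat.card D

/-- `E / D` is isomorphic to `C_q × C_q`. -/
def IsSquare (D E : Subgroup G) (q : ℕ) : Prop :=
  q.Prime ∧ D ≤ E ∧ Nat.card E = q ^ 2 * Nat.card D ∧ ∀ x ∈ E, x ^ q ∈ D

variable [Fintype (Subgroup G)]

theorem mem_between {D E D' : Subgroup G} {q : ℕ} :
    D' ∈ between D E q ↔ D ≤ D' ∧ D' ≤ E ∧ Nat.card D' = q * Nat.card D := by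
  simp [between]

theorem unique_between {D E : Subgroup G} {q : ℕ} (h : IsSquare D E q) {x : G} (hx : x ∈ E)
    (hxD : x ∉ D) (D' : Subgroup G) :
    (D' ∈ between D E q ∧ x ∈ D') ↔ D' = D ⊔ Subgroup.zpowers x := by
  obtain ⟨hq, hDE, hc, hp⟩ := h
  have hcard := card_sup_zpowers D hq hxD (hp x hx)
  constructor
  · rintro ⟨h1, h2⟩
    obtain ⟨h3, h4, h5⟩ := mem_between.1 h1
    have hle : D ⊔ Subgroup.zpowers x ≤ D' := sup_le h3 (Subgroup.zpowers_le.2 h2)
    exact (Subgroup.eq_of_le_of_card_ge hle (by rw [h5, hcard])).symm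
  · rintro rfl
    exact ⟨mem_between.2 ⟨le_sup_left, sup_le hDE (Subgroup.zpowers_le.2 hx), hcard⟩,
      (le_sup_right : Subgroup.zpowers x ≤ _) (Subgroup.mem_zpowers x)⟩

open Classical in
theorem sum_swap {A : Type*} [AddCommMonoid A] [Fintype G] (S : Finset (Subgroup G)) (f : G → A) :
    ∑ D' ∈ S, ∑ e ∈ univ.filter (fun e : G => e ∈ D'), f e =
      ∑ e : G, (S.filter fun D' => e ∈ D').card • f e := by
  simp_rw [sum_filter]
  rw [sum_comm]
  refine sum_congr rfl fun e _ => ?_
  rw [← sum_filter, sum_const]

open Classical in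
theorem card_between {D E : Subgroup G} {q : ℕ} (h : IsSquare D E q) :
    (between D E q).card = q + 1 := by
  have : Fintype G := Fintype.ofFinite G
  obtain ⟨hq, hDE, hc, hp⟩ := h
  -- count the pairs `(D', e)` with `e ∈ D' \ D`
  have h1 := sum_swap (between D E q) (fun e : G => if e ∈ D then 0 else 1)
  have h2 : ∀ D' ∈ between D E q,
      ∑ e ∈ univ.filter (fun e : G => e ∈ D'), (if e ∈ D then 0 else 1) = (q - 1) * Nat.card D := by
    intro D' hD'
    obtain ⟨h3, h4, h5⟩ := mem_between.1 hD'
    have h6 : ∀ e : G, (if e ∈ D then 0 else 1) = 1 - (if e ∈ D then 1 else 0) := by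
      intro e; split_ifs <;> rfl
    have h7 : ∑ e ∈ univ.filter (fun e : G => e ∈ D'), (if e ∈ D then 0 else 1) +
        ∑ e ∈ univ.filter (fun e : G => e ∈ D'), (if e ∈ D then 1 else 0) = Nat.card D' := by
      rw [← sum_add_distrib, Nat.card_eq_fintype_card, Fintype.card_subtype, card_eq_sum_ones]
      refine sum_congr rfl fun e _ => ?_
      split_ifs <;> rfl
    have h8 : ∑ e ∈ univ.filter (fun e : G => e ∈ D'), (if e ∈ D then 1 else 0) = Nat.card D := by
      rw [← sum_filter, filter_filter, Nat.card_eq_fintype_card, Fintype.card_subtype,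
        card_eq_sum_ones]
      congr 1
      ext e
      simp only [mem_filter, mem_univ, true_and]
      exact ⟨fun h => h.2, fun h => ⟨h3 h, h⟩⟩
    rw [h8, h5] at h7
    have h9 : 1 ≤ q := hq.one_le
    obtain ⟨r, rfl⟩ : ∃ r, q = r + 1 := ⟨q - 1, by omega⟩
    rw [Nat.add_sub_cancel]
    rw [add_mul, one_mul] at h7
    omega
  have h3 : ∀ e : G, ((between D E q).filter fun D' => e ∈ D').card • (if e ∈ D then 0 else 1) =
      if e ∈ E ∧ e ∉ D then 1 else 0 := by
    intro e
    by_cases heD : e ∈ D
    · simp [heD]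
    by_cases heE : e ∈ E
    · have h4 : ((between D E q).filter fun D' => e ∈ D') = {D ⊔ Subgroup.zpowers e} := by
        ext D'
        rw [mem_filter, mem_singleton]
        exact unique_between ⟨hq, hDE, hc, hp⟩ heE heD D'
      rw [h4]
      simp [heE, heD]
    · have h4 : ((between D E q).filter fun D' => e ∈ D') = ∅ := by
        rw [filter_eq_empty_iff]
        intro D' hD' he
        exact heE ((mem_between.1 hD').2.1 he)
      rw [h4]
      simp [heE]
  have h4 : ∑ e : G, (if e ∈ E ∧ e ∉ D then 1 else 0) + Nat.card D = Nat.card E := by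
    rw [← sum_filter, ← card_eq_sum_ones, Nat.card_eq_fintype_card, Fintype.card_subtype,
      Nat.card_eq_fintype_card, Fintype.card_subtype, ← card_union_of_disjoint]
    · congr 1
      ext e
      simp only [mem_union, mem_filter, mem_univ, true_and]
      constructor
      · rintro (⟨h, -⟩ | h)
        · exact h
        · exact hDE h
      · intro h
        by_cases h5 : e ∈ D
        · exact Or.inr h5
        · exact Or.inl ⟨h, h5⟩
    · rw [disjoint_left]
      intro e h5 h6
      simp only [mem_filter, mem_univ, true_and] at h5 h6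
      exact h5.2 h6
  rw [sum_congr rfl h2, sum_const, smul_eq_mul, sum_congr rfl fun e _ => h3 e] at h1
  rw [← h1, hc] at h4
  have h5 : 0 < Nat.card D := Nat.card_pos
  have h6 : 2 ≤ q := hq.two_le
  obtain ⟨r, rfl⟩ : ∃ r, q = r + 1 := ⟨q - 1, by omega⟩
  rw [Nat.add_sub_cancel] at h4
  have h7 : (between D E (r + 1)).card * r * Nat.card D = ((r + 1 + 1) * r) * Nat.card D := by
    have h8 : (r + 1) ^ 2 * Nat.card D = (r + 1 + 1) * r * Nat.card D + Nat.card D := by ring
    rw [h8] at h4
    have h9 : (between D E (r + 1)).card * (r * Nat.card D) =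
      (between D E (r + 1)).card * r * Nat.card D := by ring
    omega
  have h8 := Nat.eq_of_mul_eq_mul_right h5 h7
  exact Nat.eq_of_mul_eq_mul_right (by omega : 0 < r) h8

open Classical in
/-- The norm relation. -/
theorem relation {A : Type*} [AddCommMonoid A] [Fintype G] {D E : Subgroup G} {q : ℕ}
    (h : IsSquare D E q) (f : G → A) :
    ∑ D' ∈ between D E q, ∑ e ∈ univ.filter (fun e : G => e ∈ D'), f e =
      q • ∑ e ∈ univ.filter (fun e : G => e ∈ D), f e +
        ∑ e ∈ univ.filter (fun e : G => e ∈ E), f e := by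
  rw [sum_swap]
  have h1 : ∀ e : G, ((between D E q).filter fun D' => e ∈ D').card • f e =
      (if e ∈ D then q • f e else 0) + if e ∈ E then f e else 0 := by
    intro e
    by_cases heD : e ∈ D
    · have h2 : ((between D E q).filter fun D' => e ∈ D') = between D E q := by
        rw [filter_eq_self]
        intro D' hD'
        exact (mem_between.1 hD').1 heD
      rw [h2, card_between h, if_pos heD, if_pos (h.2.1 heD), add_smul, one_smul]
    by_cases heE : e ∈ E
    · have h4 : ((between D E q).filter fun D' => e ∈ D') = {D ⊔ Subgroup.zpowers e} := by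
        ext D'
        rw [mem_filter, mem_singleton]
        exact unique_between h heE heD D'
      rw [h4, card_singleton, one_smul, if_neg heD, if_pos heE, zero_add]
    · have h4 : ((between D E q).filter fun D' => e ∈ D') = ∅ := by
        rw [filter_eq_empty_iff]
        intro D' hD' he
        exact heE ((mem_between.1 hD').2.1 he)
      rw [h4, card_empty, zero_smul, if_neg heD, if_neg heE, zero_add]
  rw [sum_congr rfl fun e _ => h1 e, sum_add_distrib, ← sum_filter, ← sum_filter, smul_sum]

end Pool.Agent.X27.NR
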